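import Mathlib
import Pool.Agent.H.MP_b041da_pr.D
open Filter Topology MeasureTheory ProbabilityTheory
namespace Pool.Agent.Results.MP_b041da_pr.Rate
open Pool.Agent.H.MP_b041da_pr

theorem result (d : ℕ) (hd : 3 ≤ d) (m : (Fin d → ℤ) → Equiv.Perm (Fin d × Bool))
    (hm : ∀ x, (m x).IsCycleOn Set.univ) (e₀ : Fin d × Bool) :
    Tendsto (fun n : ℕ => (esc m (fun _ => e₀) n : ℝ) / n) atTop
      (𝓝 ((Measure.infinitePi fun _ : ℕ => uniformOn (Set.univ : Set (Fin d × Bool))).real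
        {ω | ∀ n, 1 ≤ n → ∑ i ∈ Finset.range n, vec (ω i) ≠ 0})) := by
  rw [alpha hd]
  exact rate m hm hd e₀

end Pool.Agent.Results.MP_b041da_pr.Rate
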